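import Pool.Agent.Run7.h82.BM.Fld

/-!
# `3 |σ| ≤ χ` for four-manifolds whose sectional curvature is bounded on one side near its mean

Let `R` be an algebraic curvature tensor on an oriented Euclidean four-space with scalar curvature
`s`, and `k` a real number such that all sectional curvatures are `≤ k`, or all are `≥ k`. Then

  `|pon| ≤ eul - 3 (s / 12)² + (63 / 5) (s / 12 - k)²`,

where `eul = Ω₀₁ ∧ Ω₂₃ - Ω₀₂ ∧ Ω₁₃ + Ω₀₃ ∧ Ω₁₂` and `pon = ∑_{i < j} Ω_ij ∧ Ω_ij` are the
Euler form and the first Pontryagin form, both multiplied by `4 π²`; `∫ eul = 4 π² χ` and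
`∫ pon = 4 π² p₁ = 12 π² σ` for a closed oriented Riemannian four-manifold. The bound is attained
for all values of `s` and `k` and both orientations. Hence `3 |σ| ≤ χ` as soon as the distance of the
mean sectional curvature `s / 12` to a (one-sided, pointwise) bound `k` of the sectional curvature
is at most `√(5 / 21)` times the norm of `s / 12`, in `L²`.

Proof (`Pool/Agent/Run7/h82/BM/`). By Thorpe's lemma `R - k` is, up to a multiple of the Hodge
operator, a nonnegative operator on two-forms, with blocks `P, Q, B` for the decomposition in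
self-dual and anti-self-dual forms. Then `|P|² ≤ (tr P)²`, `|B|² ≤ tr P |Q|`, and a quadratic
inequality in `tr P`, `tr Q`, `|Q|` gives the result.
-/

set_option autoImplicit false

namespace Pool.Agent.Results.MP_872606_gt.NegativeMeanPinching

open Pool.Agent.W666.GB (AlgCurv)
open Pool.Agent.Run7.h82.BM MeasureTheory

/-- `3 |σ| ≤ χ` for four-manifolds with one-sided mean pinching. -/
theorem result :
    -- the pointwise inequality
    (∀ (V : Type) [NormedAddCommGroup V] [InnerProductSpace ℝ V]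
      (e : OrthonormalBasis (Fin 4) ℝ V) (R : V → V → V → V → ℝ), AlgCurv R →
      ∀ k : ℝ, SecLe R k ∨ SecGe R k →
        |pon e R| ≤ eul e R - (3 * (scal e R / 12) ^ 2 - 63 / 5 * (scal e R / 12 - k) ^ 2)) ∧
    -- it is attained for all values of scalar curvature and bound, and for both orientations
    (∀ s u k : ℝ, s ^ 2 = 1 → ∃ R : E4 → E4 → E4 → E4 → ℝ, AlgCurv R ∧
      (u ≤ k → SecLe R k) ∧ (k ≤ u → SecGe R k) ∧ scal sb R = 12 * u ∧
      0 ≤ s * pon sb R ∧
      |pon sb R| = eul sb R - (3 * u ^ 2 - 63 / 5 * (u - k) ^ 2)) ∧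
    -- the integrated inequality
    (∀ (M : Type) [MeasurableSpace M] (μ : Measure M) (F : CurvField M) (k : M → ℝ),
      Integrable F.eul μ → Integrable F.pon μ → Integrable (fun p => F.scal p ^ 2) μ →
      Integrable (fun p => (F.scal p / 12 - k p) ^ 2) μ →
      (∀ p, F.SecLe p (k p) ∨ F.SecGe p (k p)) →
        |∫ p, F.pon p ∂μ| ≤ (∫ p, F.eul p ∂μ) - 3 * (∫ p, (F.scal p / 12) ^ 2 ∂μ) +
          63 / 5 * ∫ p, (F.scal p / 12 - k p) ^ 2 ∂μ) ∧
    -- negative curvature
    (∀ (M : Type) [MeasurableSpace M] (μ : Measure M) (F : CurvField M) (c : M → ℝ),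
      Integrable F.eul μ → Integrable F.pon μ → Integrable (fun p => c p ^ 2) μ →
      (∀ p, F.SecLe p (-(c p))) →
        ((∀ p, -(39 / 2 * c p) ≤ F.scal p) →
          |∫ p, F.pon p ∂μ| ≤ (∫ p, F.eul p ∂μ) - 3 * ∫ p, c p ^ 2 ∂μ) ∧
        ((∀ p, -(2343 / 100 * c p) ≤ F.scal p) →
          |∫ p, F.pon p ∂μ| ≤ (∫ p, F.eul p ∂μ) - 1 / 200 * ∫ p, c p ^ 2 ∂μ) ∧
        ((∀ p, 0 ≤ c p ∧ (-(2343 / 100 * c p) ≤ F.scal p ∨ F.SecGe p (-(4 * c p)))) →
          |∫ p, F.pon p ∂μ| ≤ ∫ p, F.eul p ∂μ)) := by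
  refine ⟨fun V _ _ e R hR k h => ?_, fun s u k hs => ?_, fun M _ μ F k he hp hs hk h => ?_,
    fun M _ μ F c he hp hc h => ⟨fun h1 => ?_, fun h1 => ?_, fun h1 => ?_⟩⟩
  · rcases h with h | h
    · exact pt_le e hR h
    · exact pt_ge e hR h
  · exact ⟨exR s u k, exR_curv s u k, exR_le, exR_ge, exR_scal s u k hs, exR_pon_nonneg s u k hs,
      exR_abs s u k hs⟩
  · exact int_pinch μ F h he hp hs hk
  · have := int_main μ F (g := fun p => 3 * c p ^ 2)
      (fun p => neg_vol (F.e p) (F.curv p) (h p) (h1 p)) he hp (hc.const_mul 3)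
    rwa [integral_const_mul] at this
  · have := int_main μ F (g := fun p => 1 / 200 * c p ^ 2)
      (fun p => neg_pt (F.e p) (F.curv p) (h p) (h1 p)) he hp (hc.const_mul (1 / 200))
    rwa [integral_const_mul] at this
  · have := int_main μ F (g := fun _ => 0) (fun p => by
      rw [sub_zero]
      rcases (h1 p).2 with h2 | h2
      · have h3 := neg_pt (F.e p) (F.curv p) (h p) h2
        exact le_trans h3 (by
          have : (0 : ℝ) ≤ 1 / 200 * c p ^ 2 := by positivity
          show F.eul p - _ ≤ F.eul p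
          linarith)
      · exact pt_qneg (F.e p) (F.curv p) (h1 p).1 (h p) h2) he hp (integrable_zero _ _ _)
    rw [integral_zero, sub_zero] at this
    exact this

end Pool.Agent.Results.MP_872606_gt.NegativeMeanPinching
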