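import Pool.Agent.Helper834.Conseq

/-!
# The Bogomolov-Miyaoka-Yau inequality for symplectic triple planes, and a weaker inequality for all
simple coverings

The definitions `Covering` (braid monodromy data of a simple branched covering), `κ`, `nodesPos`,
`nodesNeg`, `genus`, `c1sq` are in `Pool/Agent/Helper834/Model.lean` (starting files).

Proof: the starting files contain the bound for the number of cusps which comes from the
Levine-Tristram signature next to a sixth root of unity. In the absence of nodes it is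
`κ ≤ (23 / 72) d²` up to linear terms, whereas `c₁² ≤ 3 c₂` means `κ ≤ (5 / 16) d²` up to linear
terms, and `c₁² ≤ (13 / 3) c₂` means `κ ≤ (23 / 72) d²` up to linear terms. A covering of degree three
has no nodes, and its number of cusps is a multiple of three.
-/

set_option autoImplicit false

namespace Pool.Agent.Results.MP_872606_gt.TripleCoverings

open Pool.Agent.Helper834

/-- `c₂` of a covering of degree `N` of the plane. -/
def c2 {N d : ℕ} (X : Covering N d 1) : ℚ := 3 * N + 2 * (X.genus - 1) - X.κ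

/-- `c₁²` of a covering of degree `N` of the Hirzebruch surface `F_k`. -/
def c1sqF {N d k : ℕ} (X : Covering N d k) : ℚ :=
  8 * N - 3 / 2 * d * (k + 2) + (X.genus - 1)

/-- `c₂` of a covering of degree `N` of the Hirzebruch surface `F_k`. -/
def c2F {N d k : ℕ} (X : Covering N d k) : ℚ := 4 * N + 2 * (X.genus - 1) - X.κ

/-- arithmetic for the plane -/
theorem arith1 {d κ p q : ℕ} (h2 : 2 ≤ d)
    (h : 4 * (κ : ℤ) + 2 * p ≤
      (1 : ℕ) * d * (d - 1) + 2 * (1 : ℕ) * ((d / 6 : ℕ) : ℤ) * (((d / 6 : ℕ) : ℤ) + 1) -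
        2 * ((d / 6 : ℕ) : ℤ) +
        2 * ((d : ℤ) - 1 - 2 * ((d / 6 : ℕ) : ℤ)) * ((1 * d / 6 : ℕ) : ℤ) + 4 * q) :
    72 * (κ : ℤ) + 36 * p ≤ 23 * d ^ 2 - 24 * d + 72 * q := by
  obtain ⟨m, r, hr, hd⟩ : ∃ m r : ℕ, r < 6 ∧ d = 6 * m + r :=
    ⟨d / 6, d % 6, Nat.mod_lt _ (by norm_num), (Nat.div_add_mod d 6).symm⟩
  have hm : d / 6 = m := by omega
  rw [one_mul, hm] at h
  subst hd
  have hm0 : (0 : ℤ) ≤ m := Int.natCast_nonneg m
  have hr' : r = 0 ∨ r = 1 ∨ r = 2 ∨ r = 3 ∨ r = 4 ∨ r = 5 := by omega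
  rcases hr' with rfl | rfl | rfl | rfl | rfl | rfl
  · push_cast at h ⊢
    linarith
  · have : (1 : ℤ) ≤ m := by omega
    push_cast at h ⊢
    linarith
  · push_cast at h ⊢
    linarith
  · push_cast at h ⊢
    linarith
  · push_cast at h ⊢
    linarith
  · push_cast at h ⊢
    linarith

/-- arithmetic for the Hirzebruch surfaces -/
theorem arith2 {d k κ p q : ℕ} (he : Even d) (h2 : 2 ≤ d) (hk : 1 ≤ k)
    (h : 4 * (κ : ℤ) + 2 * p ≤
      k * d * (d - 1) + 2 * k * ((d / 6 : ℕ) : ℤ) * (((d / 6 : ℕ) : ℤ) + 1) -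
        2 * ((d / 6 : ℕ) : ℤ) +
        2 * ((d : ℤ) - 1 - 2 * ((d / 6 : ℕ) : ℤ)) * ((k * d / 6 : ℕ) : ℤ) + 4 * q) :
    72 * (κ : ℤ) + 36 * p ≤ 23 * k * d ^ 2 - 18 * k * d - 6 * d + 16 + 72 * q := by
  obtain ⟨m, r, hr, hd⟩ : ∃ m r : ℕ, r < 6 ∧ d = 6 * m + r :=
    ⟨d / 6, d % 6, Nat.mod_lt _ (by norm_num), (Nat.div_add_mod d 6).symm⟩
  have hm : d / 6 = m := by omega
  rw [hm] at h
  have hfl : 6 * ((k * d / 6 : ℕ) : ℤ) ≤ k * d := by
    have : 6 * (k * d / 6) ≤ k * d := Nat.mul_div_le _ _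
    exact_mod_cast this
  have hc : (0 : ℤ) ≤ (d : ℤ) - 1 - 2 * m := by omega
  have h3 : ((d : ℤ) - 1 - 2 * m) * (6 * ((k * d / 6 : ℕ) : ℤ)) ≤
      ((d : ℤ) - 1 - 2 * m) * (k * d) := mul_le_mul_of_nonneg_left hfl hc
  have h4 : 12 * (κ : ℤ) + 6 * p ≤ 3 * k * d * (d - 1) + 6 * k * m * (m + 1) - 6 * m +
      ((d : ℤ) - 1 - 2 * m) * (k * d) + 12 * q := by linarith
  clear h h3 hfl hc hm
  have hk0 : (1 : ℤ) ≤ k := by exact_mod_cast hk
  have hm0 : (0 : ℤ) ≤ m := Int.natCast_nonneg m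
  have hkm : (m : ℤ) ≤ k * m := by nlinarith
  obtain ⟨e, he⟩ := he
  subst hd
  have hr' : r = 0 ∨ r = 2 ∨ r = 4 := by omega
  rcases hr' with rfl | rfl | rfl
  · push_cast at h4 ⊢
    linarith
  · push_cast at h4 ⊢
    linarith
  · push_cast at h4 ⊢
    linarith

theorem coverings34 {N d : ℕ} (X : Covering N d 1)
    (hN : N = 3 ∨ N = 4 ∧ X.nodesPos = 0 ∧ X.nodesNeg = 0) :
    2 ≤ N ∧ X.nodesPos = 0 ∧ X.nodesNeg = 0 ∧ 3 ∣ X.κ := by
  rcases hN with rfl | ⟨rfl, h1, h2⟩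
  · exact ⟨by norm_num, X.nodesPos_three, X.nodesNeg_three, X.three_dvd_three⟩
  · exact ⟨by norm_num, h1, h2, X.three_dvd_four⟩

/-- the numerical part of the inequality for coverings of degree three and four -/
theorem arith3 {d κ : ℕ} (he : Even d) (h2 : 2 ≤ d) (h3 : 3 ∣ κ)
    (hd : (d ≤ 22 ∧ d ≠ 12 ∧ d ≠ 18) ∨ d = 28 ∨ d = 34)
    (h : 4 * (κ : ℤ) ≤
      (1 : ℕ) * d * (d - 1) + 2 * (1 : ℕ) * ((d / 6 : ℕ) : ℤ) * (((d / 6 : ℕ) : ℤ) + 1) -
        2 * ((d / 6 : ℕ) : ℤ) +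
        2 * ((d : ℤ) - 1 - 2 * ((d / 6 : ℕ) : ℤ)) * ((1 * d / 6 : ℕ) : ℤ)) :
    16 * (κ : ℤ) ≤ 5 * d ^ 2 - 6 * d := by
  obtain ⟨e, rfl⟩ := he
  have he : e = 1 ∨ e = 2 ∨ e = 3 ∨ e = 4 ∨ e = 5 ∨ e = 7 ∨ e = 8 ∨ e = 10 ∨
      e = 11 ∨ e = 14 ∨ e = 17 := by omega
  rcases he with rfl | rfl | rfl | rfl | rfl | rfl | rfl | rfl | rfl | rfl |
    rfl <;> norm_num at h ⊢ <;> omega

/-- the numerical part in the remaining cases -/
theorem arith4 {N d κ : ℕ} (hN : N = 3 ∨ N = 4) (hd : d = 12 ∨ d = 18 ∨ (d = 24 ∧ N = 3))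
    (hc : 0 ≤ (d : ℤ) ^ 2 - 12 * d + 18 * N - 2 * κ) :
    16 * (κ : ℤ) ≤ 5 * d ^ 2 - 6 * d := by
  rcases hN with rfl | rfl <;> rcases hd with rfl | rfl | ⟨rfl, _⟩ <;> norm_num at hc ⊢ <;> omega

/-- the numerical part if `c₂ ≥ 2` -/
theorem arith5 {N d κ : ℕ} (h3 : 3 ∣ κ)
    (hd : N = 3 ∧ (d = 26 ∨ d = 30) ∨ N = 4 ∧ (d = 24 ∨ d = 26))
    (hc : 3 * (κ : ℤ) ≤ (d : ℤ) ^ 2 - 3 * d + 3 * N - 2) :
    16 * (κ : ℤ) ≤ 5 * d ^ 2 - 6 * d := by
  obtain ⟨m, rfl⟩ := h3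
  rcases hd with ⟨rfl, rfl | rfl⟩ | ⟨rfl, rfl | rfl⟩ <;> push_cast at hc ⊢ <;> omega

/-- **(1)** A simple covering of degree `N` of the plane, with branch curve of degree `d` with
`ν₊` positive and `ν₋` negative nodes, satisfies `3 c₁² ≤ 13 c₂ + 9 d - 12 N + 5 ν₊ + 13 ν₋`.

**(2)** A simple covering of degree `N` of the Hirzebruch surface `F_k`, `k ≥ 1`, whose branch curve
has degree `d` over the base, satisfies
`3 c₁² ≤ 13 c₂ + (11 - 2 k) d - 28 N + 8 + 5 ν₊ + 13 ν₋`.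

**(3)** A simple covering of degree three of the plane has no nodes. If the degree `d` of its branch
curve is at most `22` and different from `12` and `18`, or is `28` or `34`, then `c₁² ≤ 3 c₂`; the same
holds for `d = 12, 18, 24` if `c₁² ≥ 0` or `c₂ ≥ 0`. The same holds for coverings of degree four
without nodes, except for `d = 24`. If `c₂ ≥ 2` (for example if `b₁ = 0`) it holds also for the degree three and
`d = 26, 30`, and for the degree four without nodes and `d = 24, 26`. -/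
theorem result :
    (∀ {N d : ℕ} (X : Covering N d 1), 2 ≤ N →
      3 * X.c1sq ≤ 13 * c2 X + 9 * d - 12 * N + 5 * X.nodesPos + 13 * X.nodesNeg) ∧
    (∀ {N d k : ℕ} (X : Covering N d k), 2 ≤ N → 1 ≤ k →
      3 * c1sqF X ≤ 13 * c2F X + (11 - 2 * k) * d - 28 * N + 8 + 5 * X.nodesPos +
        13 * X.nodesNeg) ∧
    (∀ {N d : ℕ} (X : Covering N d 1),
      (N = 3 ∨ N = 4 ∧ X.nodesPos = 0 ∧ X.nodesNeg = 0) →
      X.nodesPos = 0 ∧ X.nodesNeg = 0 ∧
      ((d ≤ 22 ∧ d ≠ 12 ∧ d ≠ 18) ∨ d = 28 ∨ d = 34 → X.c1sq ≤ 3 * c2 X) ∧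
      (d = 12 ∨ d = 18 ∨ (d = 24 ∧ N = 3) → 0 ≤ X.c1sq ∨ 0 ≤ c2 X → X.c1sq ≤ 3 * c2 X) ∧
      (N = 3 ∧ (d = 26 ∨ d = 30) ∨ N = 4 ∧ (d = 24 ∨ d = 26) → 2 ≤ c2 X →
        X.c1sq ≤ 3 * c2 X)) := by
  refine ⟨?_, ?_, ?_⟩
  · intro N d X hN
    have h := arith1 (X.two_le hN) (X.ineq hN le_rfl)
    have h' : 72 * (X.κ : ℚ) + 36 * X.nodesPos ≤ 23 * d ^ 2 - 24 * d + 72 * X.nodesNeg := by
      exact_mod_cast h
    simp only [Covering.c1sq, c2, Covering.genus, Covering.ν]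
    push_cast
    linarith
  · intro N d k X hN hk
    have h := arith2 X.even_d (X.two_le hN) hk (X.ineq hN hk)
    have h' : 72 * (X.κ : ℚ) + 36 * X.nodesPos ≤ 23 * k * d ^ 2 - 18 * k * d - 6 * d + 16 +
        72 * X.nodesNeg := by
      exact_mod_cast h
    simp only [c1sqF, c2F, Covering.genus, Covering.ν]
    push_cast
    linarith
  · intro N d X hN
    obtain ⟨hN2, hp, hq, h3⟩ := coverings34 X hN
    refine ⟨hp, hq, fun hd => ?_, fun hd hc => ?_, fun hd hc => ?_⟩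
    · have h := X.ineq hN2 le_rfl
      rw [hp, hq] at h
      simp only [Nat.cast_zero, mul_zero, add_zero] at h
      have goal := arith3 X.even_d (X.two_le hN2) h3 hd h
      have goal' : 16 * (X.κ : ℚ) ≤ 5 * d ^ 2 - 6 * d := by exact_mod_cast goal
      simp only [Covering.c1sq, c2, Covering.genus, Covering.ν, hp, hq]
      push_cast
      linarith
    · rcases lt_or_ge X.c1sq 0 with hlt | hc1
      · rcases hc with hc | hc
        · linarith
        · linarith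
      simp only [Covering.c1sq, c2, Covering.genus, Covering.ν, hp, hq] at hc1 ⊢
      have hc' : (0 : ℤ) ≤ (d : ℤ) ^ 2 - 12 * d + 18 * N - 2 * X.κ := by
        have : (0 : ℚ) ≤ (d : ℚ) ^ 2 - 12 * d + 18 * N - 2 * X.κ := by
          push_cast at hc1
          linarith
        exact_mod_cast this
      have goal := arith4 (by rcases hN with h | h <;> omega) hd hc'
      have goal' : 16 * (X.κ : ℚ) ≤ 5 * d ^ 2 - 6 * d := by exact_mod_cast goal
      push_cast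
      linarith
    · simp only [Covering.c1sq, c2, Covering.genus, Covering.ν, hp, hq] at hc ⊢
      have hc' : 3 * (X.κ : ℤ) ≤ (d : ℤ) ^ 2 - 3 * d + 3 * N - 2 := by
        have : 3 * (X.κ : ℚ) ≤ (d : ℚ) ^ 2 - 3 * d + 3 * N - 2 := by
          push_cast at hc
          linarith
        exact_mod_cast this
      have goal : 16 * (X.κ : ℤ) ≤ 5 * d ^ 2 - 6 * d := arith5 h3 hd hc'
      have goal' : 16 * (X.κ : ℚ) ≤ 5 * d ^ 2 - 6 * d := by exact_mod_cast goal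
      push_cast
      linarith

end Pool.Agent.Results.MP_872606_gt.TripleCoverings
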